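import Pool.Agent.N300.UN.Stubs

set_option autoImplicit false

noncomputable section

namespace Pool.Agent.N701.UN

open Pool.Agent.H923R2.FP Pool.Agent.H923R2.FZ Pool.Agent.N300.UN

variable {B : Type} [CStarAlgebra B]

theorem intertw_aeval {X Y T : B} (h : T * X = Y * T) (p : Polynomial ℝ) :
    T * Polynomial.aeval X p = Polynomial.aeval Y p * T := by
  have hn : ∀ n : ℕ, T * X ^ n = Y ^ n * T := by
    intro n
    induction n with
    | zero => simp
    | succ n ih => rw [pow_succ, ← mul_assoc, ih, mul_assoc, h, ← mul_assoc, ← pow_succ]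
  induction p using Polynomial.induction_on' with
  | add p q hp hq => rw [map_add, map_add, mul_add, add_mul, hp, hq]
  | monomial n r =>
    rw [Polynomial.aeval_monomial, Polynomial.aeval_monomial, ← mul_assoc,
      ← Algebra.commutes, mul_assoc, hn, mul_assoc]

theorem intertw {X Y T : B} (hX : IsSelfAdjoint X) (hY : IsSelfAdjoint Y) (h : T * X = Y * T)
    (F : ℝ → ℝ) (hF : Continuous F) : T * cfc F X = cfc F Y * T := by
  have key : ∀ ε : ℝ, 0 < ε → ‖T * cfc F X - cfc F Y * T‖ ≤ 2 * ‖T‖ * ε := by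
    intro ε hε
    set R : ℝ := max (‖X‖ * ‖(1 : B)‖) (‖Y‖ * ‖(1 : B)‖) with hR
    obtain ⟨p, hp⟩ := exists_polynomial_near_of_continuousOn (-R) R F hF.continuousOn ε hε
    have hpc : Continuous (fun t : ℝ => p.eval t) := p.continuous
    have est : ∀ Z : B, IsSelfAdjoint Z → ‖Z‖ * ‖(1 : B)‖ ≤ R → ‖cfc F Z - Polynomial.aeval Z p‖ ≤ ε := by
      intro Z hZ hZR
      rw [← cfc_polynomial p Z hZ, ← cfc_sub F p.eval Z hF.continuousOn hpc.continuousOn]
      refine norm_cfc_le hε.le fun t ht => ?_
      have h1 : |t| ≤ R := by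
        have := spectrum.norm_le_norm_mul_of_mem (𝕜 := ℝ) ht
        rw [Real.norm_eq_abs] at this
        exact this.trans hZR
      have h2 := hp t ⟨(abs_le.1 h1).1, (abs_le.1 h1).2⟩
      rw [Real.norm_eq_abs, abs_sub_comm]
      exact h2.le
    have e1 := est X hX (le_max_left _ _)
    have e2 := est Y hY (le_max_right _ _)
    have e3 : T * cfc F X - cfc F Y * T = T * (cfc F X - Polynomial.aeval X p) -
        (cfc F Y - Polynomial.aeval Y p) * T := by
      rw [mul_sub, sub_mul, intertw_aeval h p]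
      abel
    rw [e3]
    calc _ ≤ ‖T * (cfc F X - Polynomial.aeval X p)‖ + ‖(cfc F Y - Polynomial.aeval Y p) * T‖ :=
          norm_sub_le _ _
      _ ≤ ‖T‖ * ‖cfc F X - Polynomial.aeval X p‖ + ‖cfc F Y - Polynomial.aeval Y p‖ * ‖T‖ :=
          add_le_add (norm_mul_le _ _) (norm_mul_le _ _)
      _ ≤ ‖T‖ * ε + ε * ‖T‖ := by gcongr
      _ = 2 * ‖T‖ * ε := by ring
  have h0 : ‖T * cfc F X - cfc F Y * T‖ ≤ 0 := by
    refine le_of_forall_pos_le_add fun δ hδ => ?_
    have h1 := key (δ / (2 * ‖T‖ + 1)) (by positivity)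
    rw [zero_add]
    refine h1.trans ?_
    rw [mul_div_assoc', div_le_iff₀ (by positivity)]
    nlinarith [norm_nonneg T]
  exact sub_eq_zero.1 (norm_le_zero_iff.1 h0)

theorem div_sqrt_cont (e : ℝ) (he : 0 < e) (G : ℝ → ℝ) (hG : Continuous G)
    (h0 : ∀ t, t ≤ e → G t = 0) : Continuous (fun t => G t / Real.sqrt t) := by
  have h1 : (fun t => G t / Real.sqrt t) = fun t => G t / max (Real.sqrt t) (Real.sqrt e) := by
    funext t
    by_cases ht : t ≤ e
    · rw [h0 t ht, zero_div, zero_div]
    · rw [max_eq_left (Real.sqrt_le_sqrt (not_le.1 ht).le)]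
  rw [h1]
  refine hG.div (by fun_prop) fun t => ?_
  have : 0 < Real.sqrt e := Real.sqrt_pos.2 he
  exact (lt_max_of_lt_right this).ne'

theorem star_cfc' (T : B) (f : ℝ → ℝ) : star (cfc f T) = cfc f T :=
  (cfc_predicate (R := ℝ) f T : IsSelfAdjoint (cfc f T)).star_eq

/-- Step A -/
theorem stepA (T : B) (w : unitary B) (e : ℝ) (he : 0 < e)
    (hw : ∀ G : ℝ → ℝ, Continuous G → (∀ t, t ≤ e → G t = 0) →
      (w : B) * cfc G (star T * T) = T * cfc (fun t => G t / Real.sqrt t) (star T * T))
    (G : ℝ → ℝ) (hG : Continuous G) (hG0 : ∀ t, 0 ≤ G t) (h0 : ∀ t, t ≤ e → G t = 0) :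
    (w : B) * cfc G (star T * T) * star (w : B) = cfc G (T * star T) := by
  set C : B := star T * T with hC
  set P : B := T * star T with hP
  have hCsa : IsSelfAdjoint C := IsSelfAdjoint.star_mul_self T
  have hPsa : IsSelfAdjoint P := IsSelfAdjoint.mul_star_self T
  have hTC : T * C = P * T := by rw [hC, hP, mul_assoc]
  set g : ℝ → ℝ := fun t => Real.sqrt (G t) with hg
  have hgc : Continuous g := Real.continuous_sqrt.comp hG
  have hg0 : ∀ t, t ≤ e → g t = 0 := fun t ht => by rw [hg]; simp only; rw [h0 t ht, Real.sqrt_zero]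
  set k : ℝ → ℝ := fun t => g t / Real.sqrt t with hk
  have hkc : Continuous k := div_sqrt_cont e he g hgc hg0
  have e1 : cfc G C = cfc g C * cfc g C := by
    rw [← cfc_mul g g C hgc.continuousOn hgc.continuousOn]
    apply cfc_congr
    intro t _
    exact (Real.mul_self_sqrt (hG0 t)).symm
  have e2 : (w : B) * cfc g C = T * cfc k C := hw g hgc hg0
  have e3 : (w : B) * cfc G C * star (w : B) = (T * cfc k C) * star (T * cfc k C) := by
    rw [← e2, star_mul, star_cfc', e1]
    simp only [mul_assoc]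
  have e4 : (T * cfc k C) * star (T * cfc k C) = T * cfc (fun t => k t * k t) C * star T := by
    rw [star_mul, star_cfc', cfc_mul k k C hkc.continuousOn hkc.continuousOn]
    simp only [mul_assoc]
  rw [e3, e4, intertw hCsa hPsa hTC (fun t => k t * k t) (hkc.mul hkc), mul_assoc, ← hP]
  have e5 : cfc (fun t : ℝ => t) P = P := cfc_id' ℝ P hPsa
  conv_lhs => rw [← e5]
  rw [cfc_congr (a := cfc (fun t : ℝ => t) P) (f := fun t => k t * k t) (g := fun t => k t * k t)
    (fun t _ => rfl)]
  rw [e5]
  conv_lhs => enter [2]; rw [← e5]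
  rw [← cfc_mul (fun t => k t * k t) (fun t : ℝ => t) P (hkc.mul hkc).continuousOn
    continuousOn_id]
  apply cfc_congr
  intro t _
  simp only [hk, hg]
  by_cases ht : t ≤ e
  · rw [h0 t ht]; simp
  · have ht0 : 0 < t := he.trans (not_le.1 ht)
    have h1 : 0 < Real.sqrt t := Real.sqrt_pos.2 ht0
    have h2 : Real.sqrt t * Real.sqrt t = t := Real.mul_self_sqrt ht0.le
    have h3 : Real.sqrt (G t) * Real.sqrt (G t) = G t := Real.mul_self_sqrt (hG0 t)
    calc Real.sqrt (G t) / Real.sqrt t * (Real.sqrt (G t) / Real.sqrt t) * t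
        = (Real.sqrt (G t) * Real.sqrt (G t)) * t / (Real.sqrt t * Real.sqrt t) := by
          field_simp
      _ = G t := by rw [h2, h3]; field_simp

/-- Step B -/
theorem stepB (T : B) (w : unitary B) (e : ℝ) (he : 0 < e)
    (hw : ∀ G : ℝ → ℝ, Continuous G → (∀ t, t ≤ e → G t = 0) →
      (w : B) * cfc G (star T * T) = T * cfc (fun t => G t / Real.sqrt t) (star T * T))
    (G : ℝ → ℝ) (hG : Continuous G) (h0 : ∀ t, t ≤ e → G t = 0) :
    (w : B) * cfc G (star T * T) * star (w : B) = cfc G (T * star T) := by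
  have hp : Continuous (fun t => max (G t) 0) := hG.max continuous_const
  have hn : Continuous (fun t => max (-G t) 0) := hG.neg.max continuous_const
  have hdec : ∀ Z : B, cfc G Z = cfc (fun t => max (G t) 0) Z - cfc (fun t => max (-G t) 0) Z := by
    intro Z
    rw [← cfc_sub _ _ Z hp.continuousOn hn.continuousOn]
    apply cfc_congr
    intro t _
    simp only
    rcases le_total 0 (G t) with h | h
    · rw [max_eq_left h, max_eq_right (by linarith)]; ring
    · rw [max_eq_right h, max_eq_left (by linarith)]; ring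
  have a1 := stepA T w e he hw (fun t => max (G t) 0) hp (fun t => le_max_right _ _)
    (fun t ht => by simp [h0 t ht])
  have a2 := stepA T w e he hw (fun t => max (-G t) 0) hn (fun t => le_max_right _ _)
    (fun t ht => by simp [h0 t ht])
  rw [hdec (star T * T), hdec (T * star T), mul_sub, sub_mul, a1, a2]

theorem t_ALG1 : S_ALG1 := by
  intro Q _ T w e he hw a b hab hab' G hG
  set C : Q := star T * T with hC
  set P : Q := T * star T with hP
  have hCsa : IsSelfAdjoint C := IsSelfAdjoint.star_mul_self T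
  have hPsa : IsSelfAdjoint P := IsSelfAdjoint.mul_star_self T
  have hTa : star T * a = b * star T := by
    have := congrArg star hab'
    rwa [star_mul, star_mul, star_star, star_star] at this
  have haP : a * P = P * a := by
    rw [hP, ← mul_assoc, hab, mul_assoc, mul_assoc, ← hTa]
  have hbC : b * C = C * b := by
    rw [hC, ← mul_assoc, ← hTa, mul_assoc, mul_assoc, hab]
  have caG : ∀ F : ℝ → ℝ, Continuous F → a * cfc F P = cfc F P * a := fun F hF =>
    intertw hPsa hPsa haP F hF
  have cbG : ∀ F : ℝ → ℝ, Continuous F → b * cfc F C = cfc F C * b := fun F hF =>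
    intertw hCsa hCsa hbC F hF
  have hww : star (w : Q) * (w : Q) = 1 := Unitary.coe_star_mul_self w
  have hww' : (w : Q) * star (w : Q) = 1 := Unitary.coe_mul_star_self w
  have hB : ∀ F : ℝ → ℝ, Continuous F → (∀ t, t ≤ e → F t = 0) →
      (w : Q) * cfc F C * star (w : Q) = cfc F P := fun F hF hF0 => stepB T w e he hw F hF hF0
  have hB' : ∀ F : ℝ → ℝ, Continuous F → (∀ t, t ≤ e → F t = 0) →
      (w : Q) * cfc F C = cfc F P * (w : Q) := fun F hF hF0 => by
    rw [← hB F hF hF0, mul_assoc _ (star (w : Q)), hww, mul_one]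
  have hcom : ∀ F : ℝ → ℝ, Continuous F → (∀ t, t ≤ e → F t = 0) →
      (w : Q) * b * star (w : Q) * cfc F P = cfc F P * ((w : Q) * b * star (w : Q)) := by
    intro F hF hF0
    calc (w : Q) * b * star (w : Q) * cfc F P
        = (w : Q) * b * star (w : Q) * ((w : Q) * cfc F C * star (w : Q)) := by rw [hB F hF hF0]
      _ = (w : Q) * b * (star (w : Q) * (w : Q)) * cfc F C * star (w : Q) := by
          simp only [mul_assoc]
      _ = (w : Q) * (b * cfc F C) * star (w : Q) := by rw [hww, mul_one]; simp only [mul_assoc]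
      _ = (w : Q) * (cfc F C * b) * star (w : Q) := by rw [cbG F hF]
      _ = (w : Q) * cfc F C * (star (w : Q) * (w : Q)) * b * star (w : Q) := by
          rw [hww, mul_one]; simp only [mul_assoc]
      _ = ((w : Q) * cfc F C * star (w : Q)) * ((w : Q) * b * star (w : Q)) := by
          simp only [mul_assoc]
      _ = cfc F P * ((w : Q) * b * star (w : Q)) := by rw [hB F hF hF0]
  refine ⟨fun hGe => ⟨caG G hG, ?_⟩, fun hG0 => ?_⟩
  · have hG1 : Continuous (fun t => G t - G e) := hG.sub continuous_const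
    have h1 := hcom (fun t => G t - G e) hG1 (fun t ht => by rw [hGe t ht, sub_self])
    have h2 : cfc (fun t => G t - G e) P = cfc G P - algebraMap ℝ Q (G e) := by
      rw [cfc_sub G (fun _ => G e) P hG.continuousOn continuousOn_const, cfc_const (G e) P hPsa]
    rw [h2, mul_sub, sub_mul, ← Algebra.commutes] at h1
    exact sub_left_injective h1
  · have hk := div_sqrt_cont e he G hG hG0
    have h1 : cfc G P * a * (w : Q) = cfc G P * ((w : Q) * b * star (w : Q)) * (w : Q) := by
      calc cfc G P * a * (w : Q) = a * (cfc G P * (w : Q)) := by rw [← caG G hG, mul_assoc]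
        _ = a * ((w : Q) * cfc G C) := by rw [hB' G hG hG0]
        _ = a * (T * cfc (fun t => G t / Real.sqrt t) C) := by rw [hw G hG hG0]
        _ = T * (b * cfc (fun t => G t / Real.sqrt t) C) := by
            rw [← mul_assoc, hab, mul_assoc]
        _ = T * (cfc (fun t => G t / Real.sqrt t) C * b) := by rw [cbG _ hk]
        _ = (T * cfc (fun t => G t / Real.sqrt t) C) * b := by rw [mul_assoc]
        _ = ((w : Q) * cfc G C) * b := by rw [hw G hG hG0]
        _ = cfc G P * (w : Q) * b := by rw [hB' G hG hG0]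
        _ = cfc G P * ((w : Q) * b * star (w : Q)) * (w : Q) := by
            simp only [mul_assoc]
            rw [hww, mul_one]
    have h2 : cfc G P * a * ((w : Q) * star (w : Q)) =
        cfc G P * ((w : Q) * b * star (w : Q)) * ((w : Q) * star (w : Q)) := by
      rw [← mul_assoc, h1, mul_assoc]
    rw [hww', mul_one, mul_one] at h2
    rw [mul_sub, h2, sub_self]

end Pool.Agent.N701.UN
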